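import Mathlib
import Pool.Agent.Lib.MP_d4f5ca_al.Defs
import Pool.Agent.Lib.MP_d4f5ca_al.SkewLaurent
import Pool.Agent.Lib.MP_d4f5ca_al.Example
import Pool.Agent.Lib.MP_d4f5ca_al.Neg

set_option autoImplicit false

universe u

open Pool.Agent.Lib.MP_d4f5ca_al

namespace Pool.Agent.Results.MP_d4f5ca_al.Negative

/-- Over every field `K` there are a 5-dimensional `K`-algebra `A` that is right and left Artinian
and right and left semidistributive, and a `K`-algebra automorphism `φ` of `A` with `φ² = 1`,
such that the skew Laurent series ring `A((x, φ))` is not right semidistributive. -/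
theorem result (K : Type u) [Field K] :
    ∃ (A : Type u) (_ : Ring A) (_ : Algebra K A) (φ : A ≃ₐ[K] A),
      Module.finrank K A = 5 ∧ (∀ a : A, φ (φ a) = a) ∧
      IsRightArtinian A ∧ IsArtinianRing A ∧
      IsRightSemidistributive A ∧ IsLeftSemidistributive A ∧
      ¬ IsRightSemidistributive (SkewLaurent A φ.toRingEquiv) :=
  ⟨Tri K, inferInstance, inferInstance, Tri.swap, Tri.finrank_eq, fun _ => rfl,
    Tri.isRightArtinian, Tri.isLeftArtinian, Tri.isRightSemidistributive,
    Tri.isLeftSemidistributive, not_isRightSemidistributive K⟩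

end Pool.Agent.Results.MP_d4f5ca_al.Negative
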